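import Pool.Agent.helper27.SY.Spec

/-! Project sy, module FOU: the finite Fourier expansion of residue classes. -/

set_option autoImplicit false

namespace Pool.Agent.SY

open Finset ArithmeticFunction Pool.Agent.SX Pool.Agent.helper85.BVP

theorem FOU_orth (d : ℕ) (hd : 1 ≤ d) (m : ℤ) :
    ∑ h ∈ range d, ex ((h : ℝ) * ((m : ℝ) / d)) = if (d : ℤ) ∣ m then (d : ℂ) else 0 := by
  have hd0 : (d : ℝ) ≠ 0 := by
    have : d ≠ 0 := by omega
    exact_mod_cast this
  have h1 : ∑ h ∈ range d, ex ((h : ℝ) * ((m : ℝ) / d)) =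
      ∑ h ∈ range d, ex ((m : ℝ) / d) ^ h :=
    Finset.sum_congr rfl (fun h _ => ex_nat_mul h _)
  rw [h1]
  split_ifs with hm
  · obtain ⟨c, rfl⟩ := hm
    have h2 : ex (((((d : ℤ) * c : ℤ)) : ℝ) / d) = 1 := by
      have : ((((d : ℤ) * c : ℤ)) : ℝ) / d = (c : ℝ) := by
        push_cast
        field_simp
      rw [this]
      exact ex_int c
    rw [h2]
    simp
  · have hz : ex ((m : ℝ) / d) ≠ 1 := by
      intro h
      apply hm
      rw [ex, Complex.exp_eq_one_iff] at h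
      obtain ⟨n, hn⟩ := h
      have h3 : (2 * Real.pi * ((m : ℝ) / d) : ℝ) = n * (2 * Real.pi) := by
        have h4 : Complex.I * ((2 * Real.pi * ((m : ℝ) / d) : ℝ) : ℂ) =
            Complex.I * ((n * (2 * Real.pi) : ℝ) : ℂ) := by
          rw [hn]
          push_cast
          ring
        have h5 := mul_left_cancel₀ Complex.I_ne_zero h4
        exact_mod_cast h5
      have hpi : (2 * Real.pi : ℝ) ≠ 0 := by positivity
      have h6 : (m : ℝ) / d = n := by
        have : (2 * Real.pi) * ((m : ℝ) / d) = (2 * Real.pi) * n := by rw [h3]; ring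
        exact mul_left_cancel₀ hpi this
      have h7 : (m : ℝ) = d * n := by
        rw [← h6]
        field_simp
      have h8 : m = (d : ℤ) * n := by exact_mod_cast h7
      exact ⟨n, h8⟩
    have hg := geom_sum_mul (ex ((m : ℝ) / d)) d
    have hzd : ex ((m : ℝ) / d) ^ d = 1 := by
      rw [← ex_nat_mul]
      have : (d : ℝ) * ((m : ℝ) / d) = (m : ℝ) := by field_simp
      rw [this]
      exact ex_int m
    rw [hzd, sub_self] at hg
    rcases mul_eq_zero.1 hg with h | h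
    · exact h
    · exact absurd (sub_eq_zero.1 h) hz

theorem FOU_ind (d : ℕ) (hd : 1 ≤ d) (R : Finset ℕ) (hR : R ⊆ range d) (k : ℕ) :
    ∑ r ∈ R, (if (d : ℤ) ∣ (k : ℤ) - r then (d : ℂ) else 0) = if k % d ∈ R then (d : ℂ) else 0 := by
  have h : ∀ r ∈ R, (if (d : ℤ) ∣ (k : ℤ) - r then (d : ℂ) else 0) =
      if k % d = r then (d : ℂ) else 0 := by
    intro r hr
    have hrd : r < d := mem_range.1 (hR hr)
    have hiff : ((d : ℤ) ∣ (k : ℤ) - r) ↔ k % d = r := by
      constructor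
      · intro h
        have h1 : (r : ℤ) ≡ (k : ℤ) [ZMOD d] := (Int.modEq_iff_dvd.2 h)
        have h2 : r ≡ k [MOD d] := by exact_mod_cast h1
        have h3 : r % d = k % d := h2
        rw [← h3, Nat.mod_eq_of_lt hrd]
      · intro h
        have h2 : r ≡ k [MOD d] := by
          change r % d = k % d
          rw [h, Nat.mod_eq_of_lt hrd]
        have h1 : (r : ℤ) ≡ (k : ℤ) [ZMOD d] := by exact_mod_cast h2
        exact Int.modEq_iff_dvd.1 h1
    by_cases hc : k % d = r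
    · rw [if_pos hc, if_pos (hiff.2 hc)]
    · rw [if_neg hc, if_neg (fun h => hc (hiff.1 h))]
  rw [Finset.sum_congr rfl h, Finset.sum_ite_eq]

theorem FOU_shift (K y : ℕ) (α : ℝ) :
    ∑ k ∈ Ioc y (y + K), ex ((k : ℝ) * α) = ex ((y : ℝ) * α) * GG K α := by
  have h1 : ∑ k ∈ Ioc y (y + K), ex ((k : ℝ) * α) =
      ∑ u ∈ range K, ex (((y + (u + 1) : ℕ) : ℝ) * α) := by
    symm
    refine Finset.sum_bij (fun u _ => y + (u + 1)) ?_ ?_ ?_ ?_
    · intro u hu
      rw [mem_range] at hu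
      rw [mem_Ioc]
      omega
    · intro u _ v _ h
      omega
    · intro k hk
      rw [mem_Ioc] at hk
      exact ⟨k - y - 1, by rw [mem_range]; omega, by omega⟩
    · intro u _
      rfl
  rw [h1, GG, Finset.mul_sum]
  refine Finset.sum_congr rfl (fun u _ => ?_)
  rw [← ex_add]
  congr 1
  push_cast
  ring

theorem FOU : FOU_stmt := by
  intro d R K y hd hR
  have hdC : (d : ℂ) ≠ 0 := by
    have : d ≠ 0 := by omega
    exact_mod_cast this
  have hcard : (((Ioc y (y + K)).filter fun k => k % d ∈ R).card : ℂ) * d =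
      ∑ k ∈ Ioc y (y + K), ∑ r ∈ R, ∑ h ∈ range d, ex ((h : ℝ) * ((((k : ℤ) - r : ℤ) : ℝ) / d)) := by
    have h1 : ∀ k ∈ Ioc y (y + K), ∑ r ∈ R, ∑ h ∈ range d,
        ex ((h : ℝ) * ((((k : ℤ) - r : ℤ) : ℝ) / d)) = if k % d ∈ R then (d : ℂ) else 0 := by
      intro k _
      rw [← FOU_ind d hd R hR k]
      exact Finset.sum_congr rfl (fun r _ => FOU_orth d hd _)
    rw [Finset.sum_congr rfl h1, ← Finset.sum_filter, Finset.sum_const, nsmul_eq_mul]
  have hswap : ∑ k ∈ Ioc y (y + K), ∑ r ∈ R, ∑ h ∈ range d,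
      ex ((h : ℝ) * ((((k : ℤ) - r : ℤ) : ℝ) / d)) =
      ∑ h ∈ range d, (∑ r ∈ R, ex (-((h : ℝ) * r / d))) * GG K ((h : ℝ) / d) *
        ex ((y : ℝ) * ((h : ℝ) / d)) := by
    have h2 : ∀ k ∈ Ioc y (y + K), ∑ r ∈ R, ∑ h ∈ range d,
        ex ((h : ℝ) * ((((k : ℤ) - r : ℤ) : ℝ) / d)) =
        ∑ h ∈ range d, (∑ r ∈ R, ex (-((h : ℝ) * r / d))) * ex ((k : ℝ) * ((h : ℝ) / d)) := by
      intro k _
      rw [Finset.sum_comm]
      refine Finset.sum_congr rfl (fun h _ => ?_)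
      rw [Finset.sum_mul]
      refine Finset.sum_congr rfl (fun r _ => ?_)
      rw [← ex_add]
      congr 1
      push_cast
      ring
    rw [Finset.sum_congr rfl h2, Finset.sum_comm]
    refine Finset.sum_congr rfl (fun h _ => ?_)
    rw [← Finset.mul_sum, FOU_shift]
    ring
  have hsplit : range d = insert 0 (Ico 1 d) := by
    ext x
    rw [mem_range, mem_insert, mem_Ico]
    omega
  have h0 : (0 : ℕ) ∉ Ico 1 d := by
    rw [mem_Ico]
    omega
  have hz : (∑ r ∈ R, ex (-(((0 : ℕ) : ℝ) * r / d))) * GG K (((0 : ℕ) : ℝ) / d) *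
      ex ((y : ℝ) * (((0 : ℕ) : ℝ) / d)) = (K : ℂ) * R.card := by
    have e1 : ∀ r ∈ R, ex (-(((0 : ℕ) : ℝ) * r / d)) = 1 := by
      intro r _
      rw [Nat.cast_zero, zero_mul, zero_div, neg_zero, ex_zero]
    have e2 : GG K (((0 : ℕ) : ℝ) / d) = K := by
      rw [GG]
      have : ∀ u ∈ range K, ex (((u + 1 : ℕ) : ℝ) * (((0 : ℕ) : ℝ) / d)) = 1 := by
        intro u _
        rw [Nat.cast_zero, zero_div, mul_zero, ex_zero]
      rw [Finset.sum_congr rfl this]
      simp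
    rw [Finset.sum_congr rfl e1, e2, Nat.cast_zero, zero_div, mul_zero, ex_zero, mul_one,
      Finset.sum_const, nsmul_eq_mul, mul_one, mul_comm]
  rw [hswap, hsplit, Finset.sum_insert h0, hz] at hcard
  have hA := (eq_div_iff hdC).2 hcard
  rw [hA]
  ring

end Pool.Agent.SY
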